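import Mathlib
import Pool.Agent.Helper260.OctData

namespace Pool.Agent.Helper260.OctCheck

open Pool.Agent.Helper260.OctData

/-- bit test by arithmetic -/
def bt (m k : ℕ) : Bool := Nat.beq (Nat.mod (Nat.shiftRight m k) 2) 1

/-- validity of a clique given by three bit positions (0 = absent) -/
def cliqueOK (p1 p2 p3 : ℕ) : Bool :=
  cond (Nat.beq p2 0) (Nat.beq p3 0)
    (cond (bt DM (Nat.sub (Nat.div p1 8) (Nat.div p2 8)))
      (cond (Nat.beq p3 0) true
        (cond (bt DM (Nat.sub (Nat.div p1 8) (Nat.div p3 8)))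
          (bt DM (Nat.sub (Nat.div p2 8) (Nat.div p3 8))) false)) false)

/-- remove three bits -/
def rem3 (R p1 p2 p3 : ℕ) : ℕ :=
  Nat.xor R (Nat.land R (Nat.lor (Nat.shiftLeft 1 p1)
    (Nat.lor (Nat.shiftLeft 1 p2) (Nat.shiftLeft 1 p3))))

/-- leaf check: cover `R` by at most `b` cliques -/
noncomputable def leaf (b : ℕ) : ℕ → ℕ → Bool :=
  Nat.rec (motive := fun _ => ℕ → ℕ → Bool) (fun R _ => Nat.beq R 0)
    (fun _ ih R L =>
      cond (Nat.beq R 0) true
        (cond (cliqueOK (Nat.mod L 4096) (Nat.mod (Nat.shiftRight L 12) 4096)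
            (Nat.mod (Nat.shiftRight L 24) 4096))
          (ih (rem3 R (Nat.mod L 4096) (Nat.mod (Nat.shiftRight L 12) 4096)
            (Nat.mod (Nat.shiftRight L 24) 4096)) (Nat.shiftRight L 36)) false)) b

/-- stack of subproblems -/
inductive St where
  | nil : St
  | cons : ℕ → ℕ → St → St

/-- run a list of instructions -/
noncomputable def run (is : List ℕ) : St → (St → Bool) → Bool :=
  List.rec (motive := fun _ => St → (St → Bool) → Bool)
    (fun st k => k st)
    (fun i _ ih st k =>
      St.rec (motive := fun _ => Bool) false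
        (fun R b st' _ =>
          cond (Nat.beq (Nat.mod i 2) 0)
            (cond (Nat.ble 90 (Nat.div i 2))
              (cond (Nat.ble (Nat.succ (Nat.log2 (Nat.mod (Nat.shiftRight R (Nat.mul 8 (Nat.div i 2))) 256))) b)
                (ih (St.cons (Nat.xor R (Nat.land R (Nat.shiftLeft NP (Nat.mul 8 (Nat.sub (Nat.div i 2) 90)))))
                    (Nat.sub b (Nat.succ (Nat.log2 (Nat.mod (Nat.shiftRight R (Nat.mul 8 (Nat.div i 2))) 256))))
                  (St.cons (Nat.xor R (Nat.land R (Nat.shiftLeft 255 (Nat.mul 8 (Nat.div i 2))))) b st')) k)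
                false) false)
            (cond (leaf b R (Nat.div i 2)) (ih st' k) false)) st) is

end Pool.Agent.Helper260.OctCheck
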