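import Mathlib
import Pool.Agent.Helper260.OctCheck

namespace Pool.Agent.Helper260.OctSound

open Pool.Agent.Helper260.OctData Pool.Agent.Helper260.OctCheck
open scoped Classical

theorem bt_eq (m k : ℕ) : bt m k = m.testBit k := by
  show Nat.beq ((m >>> k) % 2) 1 = m.testBit k
  rw [Nat.testBit_eq_decide_div_mod_eq, Nat.shiftRight_eq_div_pow]
  by_cases h : m / 2 ^ k % 2 = 1
  · rw [h]; simp
  · have : Nat.beq (m / 2 ^ k % 2) 1 = false := by
      rw [Bool.eq_false_iff]
      intro h'
      exact h (Nat.eq_of_beq_eq_true h')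
    rw [this]
    simp [h]

/-- A set of codes with no two adjacent ones. -/
def Indep (I : Set ℕ) : Prop :=
  0 ∉ I ∧ ∀ u ∈ I, ∀ v ∈ I, v < u → DM.testBit (u - v) = false

/-- The bits of `R` lying in fields that belong to `I`. -/
noncomputable def bits (I : Set ℕ) (R : ℕ) : Finset ℕ :=
  (Finset.range 4096).filter (fun k => R.testBit k = true ∧ k / 8 ∈ I)

theorem mem_bits (I : Set ℕ) (R k : ℕ) :
    k ∈ bits I R ↔ k < 4096 ∧ R.testBit k = true ∧ k / 8 ∈ I := by
  unfold bits
  rw [Finset.mem_filter, Finset.mem_range]

/-- every independent set meets `R` in at most `b` bits -/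
def Good (R b : ℕ) : Prop := ∀ I : Set ℕ, Indep I → (bits I R).card ≤ b

theorem good_zero (b : ℕ) : Good 0 b := by
  intro I _
  have : bits I 0 = ∅ := by
    unfold bits
    rw [Finset.filter_eq_empty_iff]
    intro k _ h
    simp at h
  rw [this]
  simp

theorem DM_zero : DM.testBit 0 = false := by decide +kernel

theorem pair_not {I : Set ℕ} (hI : Indep I) {a b : ℕ} (ha : a / 8 ∈ I) (hb : b / 8 ∈ I)
    (h : DM.testBit (a / 8 - b / 8) = true) : False := by
  by_cases hlt : b / 8 < a / 8
  · have := hI.2 _ ha _ hb hlt
    rw [this] at h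
    exact Bool.false_ne_true h
  · have h0 : a / 8 - b / 8 = 0 := by omega
    rw [h0, DM_zero] at h
    exact Bool.false_ne_true h

theorem clique_sound {I : Set ℕ} (hI : Indep I) {p1 p2 p3 : ℕ} (h : cliqueOK p1 p2 p3 = true)
    {a b : ℕ} (ha : a = p1 ∨ a = p2 ∨ a = p3) (hb : b = p1 ∨ b = p2 ∨ b = p3)
    (haI : a / 8 ∈ I) (hbI : b / 8 ∈ I) : a = b := by
  unfold cliqueOK at h
  simp only [bt_eq] at h
  have hdiv0 : ∀ p, p / 8 ∈ I → p ≠ 0 := by
    intro p hp h0
    subst h0
    exact hI.1 (by simpa using hp)
  have e12 : p1 / 8 ∈ I → p2 / 8 ∈ I → False := by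
    intro h1 h2
    have hp2 : Nat.beq p2 0 = false := by
      rw [Bool.eq_false_iff]; intro h'; exact hdiv0 p2 h2 (Nat.eq_of_beq_eq_true h')
    rw [hp2] at h
    simp only [cond_false] at h
    by_cases hb : DM.testBit (p1 / 8 - p2 / 8) = true
    · exact pair_not hI h1 h2 hb
    · have hb' : DM.testBit (Nat.sub (Nat.div p1 8) (Nat.div p2 8)) = false :=
        Bool.eq_false_iff.mpr hb
      rw [hb'] at h
      simp at h
  have e13 : p1 / 8 ∈ I → p3 / 8 ∈ I → False := by
    intro h1 h3
    have hp3 : Nat.beq p3 0 = false := by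
      rw [Bool.eq_false_iff]; intro h'; exact hdiv0 p3 h3 (Nat.eq_of_beq_eq_true h')
    rw [hp3] at h
    by_cases hb : DM.testBit (p1 / 8 - p3 / 8) = true
    · exact pair_not hI h1 h3 hb
    · have hb' : DM.testBit (Nat.sub (Nat.div p1 8) (Nat.div p3 8)) = false :=
        Bool.eq_false_iff.mpr hb
      rw [hb'] at h
      cases hx : Nat.beq p2 0 <;> cases hy : DM.testBit (Nat.sub (Nat.div p1 8) (Nat.div p2 8)) <;>
        simp [hx] at h
  have e23 : p2 / 8 ∈ I → p3 / 8 ∈ I → False := by
    intro h2 h3
    have hp3 : Nat.beq p3 0 = false := by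
      rw [Bool.eq_false_iff]; intro h'; exact hdiv0 p3 h3 (Nat.eq_of_beq_eq_true h')
    rw [hp3] at h
    by_cases hb : DM.testBit (p2 / 8 - p3 / 8) = true
    · exact pair_not hI h2 h3 hb
    · have hb' : DM.testBit (Nat.sub (Nat.div p2 8) (Nat.div p3 8)) = false :=
        Bool.eq_false_iff.mpr hb
      rw [hb'] at h
      cases hx : Nat.beq p2 0 <;> cases hy : DM.testBit (Nat.sub (Nat.div p1 8) (Nat.div p2 8)) <;>
        cases hz : DM.testBit (Nat.sub (Nat.div p1 8) (Nat.div p3 8)) <;>
        simp [hx, hy, hz] at h
  rcases ha with rfl | rfl | rfl <;> rcases hb with rfl | rfl | rfl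
  · rfl
  · exact (e12 haI hbI).elim
  · exact (e13 haI hbI).elim
  · exact (e12 hbI haI).elim
  · rfl
  · exact (e23 haI hbI).elim
  · exact (e13 hbI haI).elim
  · exact (e23 hbI haI).elim
  · rfl

theorem testBit_rem (R M k : ℕ) :
    (Nat.xor R (Nat.land R M)).testBit k = (R.testBit k && !M.testBit k) := by
  show (R ^^^ (R &&& M)).testBit k = _
  rw [Nat.testBit_xor, Nat.testBit_and]
  cases R.testBit k <;> cases M.testBit k <;> rfl

theorem testBit_one_shift (p k : ℕ) : (Nat.shiftLeft 1 p).testBit k = decide (k = p) := by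
  show (1 <<< p).testBit k = _
  rw [Nat.one_shiftLeft, Nat.testBit_two_pow]
  simp [eq_comm]

theorem good_rem3 {R p1 p2 p3 b : ℕ} (hc : cliqueOK p1 p2 p3 = true)
    (h : Good (rem3 R p1 p2 p3) b) : Good R (b + 1) := by
  intro I hI
  have h1 := h I hI
  set R' := rem3 R p1 p2 p3 with hR'
  have hsub : bits I R ⊆ bits I R' ∪ (bits I R \ bits I R') := by
    intro k hk
    by_cases hk' : k ∈ bits I R'
    · exact Finset.mem_union_left _ hk'
    · exact Finset.mem_union_right _ (Finset.mem_sdiff.mpr ⟨hk, hk'⟩)
  have hmem : ∀ a ∈ bits I R \ bits I R', (a = p1 ∨ a = p2 ∨ a = p3) ∧ a / 8 ∈ I := by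
    intro a ha
    rw [Finset.mem_sdiff] at ha
    obtain ⟨ha1, ha2⟩ := ha
    unfold bits at ha1 ha2
    rw [Finset.mem_filter] at ha1 ha2
    refine ⟨?_, ha1.2.2⟩
    by_contra hne
    push Not at hne
    apply ha2
    refine ⟨ha1.1, ?_, ha1.2.2⟩
    rw [hR']
    unfold rem3
    rw [testBit_rem, ha1.2.1]
    show (true && !(((1 <<< p1) ||| ((1 <<< p2) ||| (1 <<< p3))).testBit a)) = true
    rw [Nat.testBit_or, Nat.testBit_or]
    have e : ∀ p, (1 <<< p).testBit a = decide (a = p) := fun p => testBit_one_shift p a
    rw [e, e, e]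
    simp [hne.1, hne.2.1, hne.2.2]
  have hone : (bits I R \ bits I R').card ≤ 1 := by
    rw [Finset.card_le_one]
    intro a ha b' hb'
    have ha' := hmem a ha
    have hb'' := hmem b' hb'
    exact clique_sound hI hc ha'.1 hb''.1 ha'.2 hb''.2
  calc (bits I R).card ≤ (bits I R' ∪ (bits I R \ bits I R')).card := Finset.card_le_card hsub
    _ ≤ (bits I R').card + (bits I R \ bits I R').card := Finset.card_union_le _ _
    _ ≤ b + 1 := by omega

theorem leaf_sound : ∀ (b R L : ℕ), leaf b R L = true → Good R b := by
  intro b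
  induction b with
  | zero =>
    intro R L h
    have h0 : R = 0 := Nat.eq_of_beq_eq_true h
    subst h0
    exact good_zero _
  | succ b ih =>
    intro R L h
    change cond (Nat.beq R 0) true
        (cond (cliqueOK (Nat.mod L 4096) (Nat.mod (Nat.shiftRight L 12) 4096)
            (Nat.mod (Nat.shiftRight L 24) 4096))
          (leaf b (rem3 R (Nat.mod L 4096) (Nat.mod (Nat.shiftRight L 12) 4096)
            (Nat.mod (Nat.shiftRight L 24) 4096)) (Nat.shiftRight L 36)) false) = true at h
    cases h0 : Nat.beq R 0 with
    | true =>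
      have h0' : R = 0 := Nat.eq_of_beq_eq_true h0
      subst h0'
      exact good_zero _
    | false =>
      rw [h0] at h
      simp only [cond_false] at h
      cases hc : cliqueOK (Nat.mod L 4096) (Nat.mod (Nat.shiftRight L 12) 4096)
            (Nat.mod (Nat.shiftRight L 24) 4096) with
      | false => rw [hc] at h; simp at h
      | true =>
        rw [hc] at h
        simp only [cond_true] at h
        exact good_rem3 hc (ih _ _ h)

/-! ### Branching -/

theorem NP_spec : ∀ j < 2048, NP.testBit j = true →
    (j / 8 = 90 ∨ (90 < j / 8 ∧ DM.testBit (j / 8 - 90) = true) ∨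
      (j / 8 < 90 ∧ DM.testBit (90 - j / 8) = true)) := by
  decide +kernel

theorem NP_lt : NP < 2 ^ 2048 := by
  decide +kernel

theorem NP_spec' (j : ℕ) (h : NP.testBit j = true) :
    (j / 8 = 90 ∨ (90 < j / 8 ∧ DM.testBit (j / 8 - 90) = true) ∨
      (j / 8 < 90 ∧ DM.testBit (90 - j / 8) = true)) := by
  by_cases hj : j < 2048
  · exact NP_spec j hj h
  · exfalso
    have : NP.testBit j = false := by
      apply Nat.testBit_lt_two_pow
      exact lt_of_lt_of_le NP_lt (Nat.pow_le_pow_right (by norm_num) (by omega))
    rw [this] at h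
    exact Bool.false_ne_true h

theorem good_branch {R b v : ℕ} (hv : 90 ≤ v)
    (hw : Nat.succ (Nat.log2 (Nat.mod (Nat.shiftRight R (Nat.mul 8 v)) 256)) ≤ b)
    (h1 : Good (Nat.xor R (Nat.land R (Nat.shiftLeft NP (Nat.mul 8 (Nat.sub v 90)))))
      (Nat.sub b (Nat.succ (Nat.log2 (Nat.mod (Nat.shiftRight R (Nat.mul 8 v)) 256)))))
    (h2 : Good (Nat.xor R (Nat.land R (Nat.shiftLeft 255 (Nat.mul 8 v)))) b) : Good R b := by
  intro I hI
  set f := Nat.mod (Nat.shiftRight R (Nat.mul 8 v)) 256 with hf
  have hf' : f = (R >>> (8 * v)) % 256 := rfl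
  by_cases hvI : v ∈ I
  · have h1' := h1 I hI
    set R1 := Nat.xor R (Nat.land R (Nat.shiftLeft NP (Nat.mul 8 (Nat.sub v 90)))) with hR1
    have hsub : bits I R ⊆ bits I R1 ∪ (Finset.range (Nat.succ (Nat.log2 f))).image
        (fun c => 8 * v + c) := by
      intro k hk
      have hk' := hk
      unfold bits at hk'
      rw [Finset.mem_filter] at hk'
      obtain ⟨hk1, hk2, hk3⟩ := hk'
      by_cases hkv : k / 8 = v
      · apply Finset.mem_union_right
        rw [Finset.mem_image]
        refine ⟨k - 8 * v, ?_, by omega⟩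
        rw [Finset.mem_range]
        have hc8 : k - 8 * v < 8 := by omega
        have hbit : f.testBit (k - 8 * v) = true := by
          rw [hf', show (256 : ℕ) = 2 ^ 8 by norm_num, Nat.testBit_mod_two_pow,
            Nat.testBit_shiftRight]
          have : 8 * v + (k - 8 * v) = k := by omega
          rw [this, hk2]
          simp [hc8]
        have hge := Nat.ge_two_pow_of_testBit hbit
        have hne : f ≠ 0 := by
          intro h0; rw [h0] at hbit; simp at hbit
        have := (Nat.le_log2 hne).mpr hge
        omega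
      · apply Finset.mem_union_left
        unfold bits
        rw [Finset.mem_filter]
        refine ⟨hk1, ?_, hk3⟩
        rw [hR1, testBit_rem, hk2]
        show (true && !((NP <<< (8 * (v - 90))).testBit k)) = true
        rw [Nat.testBit_shiftLeft]
        by_cases hge : 8 * (v - 90) ≤ k
        · have hnot : NP.testBit (k - 8 * (v - 90)) = false := by
            rw [Bool.eq_false_iff]
            intro hN
            have hdiv : (k - 8 * (v - 90)) / 8 = k / 8 + 90 - v := by omega
            have hspec := NP_spec' _ hN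
            rw [hdiv] at hspec
            rcases hspec with h | ⟨h, h'⟩ | ⟨h, h'⟩
            · omega
            · have e : k / 8 + 90 - v - 90 = k / 8 - v := by omega
              rw [e] at h'
              have := hI.2 _ hk3 _ hvI (by omega)
              rw [this] at h'
              exact Bool.false_ne_true h'
            · have e : 90 - (k / 8 + 90 - v) = v - k / 8 := by omega
              rw [e] at h'
              have := hI.2 _ hvI _ hk3 (by omega)
              rw [this] at h'
              exact Bool.false_ne_true h'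
          rw [hnot]
          simp
        · have : decide (k ≥ 8 * (v - 90)) = false := by simp [hge]
          rw [this]
          simp
    have hcard : ((Finset.range (Nat.succ (Nat.log2 f))).image (fun c => 8 * v + c)).card ≤
        Nat.succ (Nat.log2 f) := by
      refine Finset.card_image_le.trans ?_
      simp
    calc (bits I R).card ≤ (bits I R1 ∪ (Finset.range (Nat.succ (Nat.log2 f))).image
        (fun c => 8 * v + c)).card := Finset.card_le_card hsub
      _ ≤ (bits I R1).card + ((Finset.range (Nat.succ (Nat.log2 f))).image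
        (fun c => 8 * v + c)).card := Finset.card_union_le _ _
      _ ≤ (b - Nat.succ (Nat.log2 f)) + Nat.succ (Nat.log2 f) := Nat.add_le_add h1' hcard
      _ = b := Nat.sub_add_cancel hw
  · have h2' := h2 I hI
    refine (Finset.card_le_card ?_).trans h2'
    intro k hk
    unfold bits at hk ⊢
    rw [Finset.mem_filter] at hk ⊢
    obtain ⟨hk1, hk2, hk3⟩ := hk
    refine ⟨hk1, ?_, hk3⟩
    have hkv : k / 8 ≠ v := fun h => hvI (h ▸ hk3)
    rw [testBit_rem, hk2]
    show (true && !((255 <<< (8 * v)).testBit k)) = true
    rw [Nat.testBit_shiftLeft]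
    by_cases hge : 8 * v ≤ k
    · have : (255 : ℕ).testBit (k - 8 * v) = false := by
        apply Nat.testBit_lt_two_pow
        have h8 : 8 ≤ k - 8 * v := by omega
        calc 255 < 2 ^ 8 := by norm_num
          _ ≤ 2 ^ (k - 8 * v) := Nat.pow_le_pow_right (by norm_num) h8
      rw [this]
      simp
    · have : decide (k ≥ 8 * v) = false := by simp [hge]
      rw [this]
      simp

/-- all subproblems on the stack are good -/
def AllGood : St → Prop
  | St.nil => True
  | St.cons R b st => Good R b ∧ AllGood st

theorem run_sound : ∀ (is : List ℕ) (st : St) (k : St → Bool),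
    (∀ st', k st' = true → AllGood st') → run is st k = true → AllGood st := by
  intro is
  induction is with
  | nil =>
    intro st k hk h
    exact hk st h
  | cons i is ih =>
    intro st k hk h
    cases st with
    | nil => exact trivial
    | cons R b st' =>
      change cond (Nat.beq (Nat.mod i 2) 0)
            (cond (Nat.ble 90 (Nat.div i 2))
              (cond (Nat.ble (Nat.succ (Nat.log2 (Nat.mod (Nat.shiftRight R (Nat.mul 8 (Nat.div i 2))) 256))) b)
                (run is (St.cons (Nat.xor R (Nat.land R (Nat.shiftLeft NP (Nat.mul 8 (Nat.sub (Nat.div i 2) 90)))))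
                    (Nat.sub b (Nat.succ (Nat.log2 (Nat.mod (Nat.shiftRight R (Nat.mul 8 (Nat.div i 2))) 256))))
                  (St.cons (Nat.xor R (Nat.land R (Nat.shiftLeft 255 (Nat.mul 8 (Nat.div i 2))))) b st')) k)
                false) false)
            (cond (leaf b R (Nat.div i 2)) (run is st' k) false) = true at h
      cases h0 : Nat.beq (Nat.mod i 2) 0 with
      | true =>
        rw [h0] at h
        simp only [cond_true] at h
        cases h1 : Nat.ble 90 (Nat.div i 2) with
        | false => rw [h1] at h; simp at h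
        | true =>
          rw [h1] at h
          simp only [cond_true] at h
          cases h2 : Nat.ble (Nat.succ (Nat.log2 (Nat.mod (Nat.shiftRight R
              (Nat.mul 8 (Nat.div i 2))) 256))) b with
          | false => rw [h2] at h; simp at h
          | true =>
            rw [h2] at h
            simp only [cond_true] at h
            have h3 := ih _ k hk h
            obtain ⟨g1, g2, g3⟩ := h3
            exact ⟨good_branch (Nat.le_of_ble_eq_true h1) (Nat.le_of_ble_eq_true h2) g1 g2, g3⟩
      | false =>
        rw [h0] at h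
        simp only [cond_false] at h
        cases h1 : leaf b R (Nat.div i 2) with
        | false => rw [h1] at h; simp at h
        | true =>
          rw [h1] at h
          simp only [cond_true] at h
          exact ⟨leaf_sound _ _ _ h1, ih _ k hk h⟩

/-- the final continuation -/
noncomputable def fin (st : St) : Bool := St.rec (motive := fun _ => Bool) true (fun _ _ _ _ => false) st

theorem fin_sound (st : St) (h : fin st = true) : AllGood st := by
  cases st with
  | nil => exact trivial
  | cons R b st => exact absurd h Bool.false_ne_true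

end Pool.Agent.Helper260.OctSound
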