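import Mathlib
import Pool.Agent.Helper260.OctSound

namespace Pool.Agent.Helper260.OctRun

open Pool.Agent.Helper260.OctData Pool.Agent.Helper260.OctCheck Pool.Agent.Helper260.OctSound

set_option maxRecDepth 1000000 in
theorem run_ok : run cert.flatten (St.cons R0 83 St.nil) fin = true := by
  decide +kernel

theorem good_R0 : Good R0 83 := (run_sound _ _ _ fin_sound run_ok).1

end Pool.Agent.Helper260.OctRun
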