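import Mathlib
import Pool.Agent.Helper260.OctRun

namespace Pool.Agent.Helper260.OctPlane

open Pool.Agent.Helper260.OctData Pool.Agent.Helper260.OctCheck Pool.Agent.Helper260.OctSound
open Pool.Agent.Helper260.OctRun
open scoped Classical

/-- the difference vector `(a,b)` lies on the boundary of the octagon
`max (|a|/4, |b|/4, (|a|+|b|)/6) ≤ 1` -/
def isD (a b : ℤ) : Prop :=
  |a| ≤ 4 ∧ |b| ≤ 4 ∧ |a| + |b| ≤ 6 ∧ (|a| = 4 ∨ |b| = 4 ∨ |a| + |b| = 6)

/-- no two points of `A` differ by a vector of norm one -/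
def IndepZ (A : Set (ℤ × ℤ)) : Prop := ∀ p ∈ A, ∀ q ∈ A, ¬ isD (p.1 - q.1) (p.2 - q.2)

/-- decoding of codes -/
def dec (u : ℕ) : ℤ × ℤ := (((u / 20 : ℕ) : ℤ) - 11, ((u % 20 : ℕ) : ℤ) - 7)

theorem DM_spec : ∀ δ < 100, DM.testBit δ = true →
    (δ = 4 ∨ δ = 16 ∨ δ = 24 ∨ δ = 36 ∨ δ = 44 ∨ δ = 57 ∨ δ = 63 ∨ δ = 78 ∨ δ = 79 ∨ δ = 80 ∨
      δ = 81 ∨ δ = 82) := by
  decide +kernel

theorem DM_lt : DM < 2 ^ 100 := by
  decide +kernel

theorem DM_spec' (δ : ℕ) (h : DM.testBit δ = true) :
    (δ = 4 ∨ δ = 16 ∨ δ = 24 ∨ δ = 36 ∨ δ = 44 ∨ δ = 57 ∨ δ = 63 ∨ δ = 78 ∨ δ = 79 ∨ δ = 80 ∨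
      δ = 81 ∨ δ = 82) := by
  by_cases hj : δ < 100
  · exact DM_spec δ hj h
  · exfalso
    have : DM.testBit δ = false := by
      apply Nat.testBit_lt_two_pow
      exact lt_of_lt_of_le DM_lt (Nat.pow_le_pow_right (by norm_num) (by omega))
    rw [this] at h
    exact Bool.false_ne_true h

theorem isD_of_eq {a b : ℤ} (u v : ℤ) (ha : a = u) (hb : b = v) (h : isD u v) : isD a b := by
  rw [ha, hb]; exact h

/-- the bits of the pattern -/
def BB : Finset ℕ := (Finset.range 4096).filter (fun k => R0.testBit k = true)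

set_option maxRecDepth 1000000 in
theorem BB_window0 : ∀ a < 64, ∀ b < 64, R0.testBit (64 * a + b) = true →
    (5 ≤ (64 * a + b) / 8 / 20 ∧ (64 * a + b) / 8 / 20 ≤ 17 ∧ 1 ≤ (64 * a + b) / 8 % 20 ∧
      (64 * a + b) / 8 % 20 ≤ 13) := by
  decide +kernel

theorem BB_window : ∀ k < 4096, R0.testBit k = true →
    (5 ≤ k / 8 / 20 ∧ k / 8 / 20 ≤ 17 ∧ 1 ≤ k / 8 % 20 ∧ k / 8 % 20 ≤ 13) := by
  intro k hk h
  have := BB_window0 (k / 64) (by omega) (k % 64) (by omega)
  rw [Nat.div_add_mod] at this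
  exact this h

theorem mem_BB (k : ℕ) : k ∈ BB ↔ k < 4096 ∧ R0.testBit k = true := by
  unfold BB
  rw [Finset.mem_filter, Finset.mem_range]

theorem BB_window' {k : ℕ} (hk : k ∈ BB) :
    (5 ≤ k / 8 / 20 ∧ k / 8 / 20 ≤ 17 ∧ 1 ≤ k / 8 % 20 ∧ k / 8 % 20 ≤ 13) := by
  rw [mem_BB] at hk
  exact BB_window k hk.1 hk.2

/-- every independent set meets the pattern in at most 83 of its 333 elements -/
theorem pattern (A : Set (ℤ × ℤ)) (hA : IndepZ A) (F : Finset ℕ) (hF : F ⊆ BB)
    (hFA : ∀ k ∈ F, dec (k / 8) ∈ A) : F.card ≤ 83 := by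
  have hI : Indep {u : ℕ | 5 ≤ u / 20 ∧ u / 20 ≤ 17 ∧ 1 ≤ u % 20 ∧ u % 20 ≤ 13 ∧ dec u ∈ A} := by
    constructor
    · intro h
      have := h.1
      omega
    · rintro u ⟨hu1, hu2, hu3, hu4, hu5⟩ v ⟨hv1, hv2, hv3, hv4, hv5⟩ hlt
      by_contra hne
      have hbit : DM.testBit (u - v) = true := by simpa using hne
      have hspec := DM_spec' _ hbit
      have hnot := hA _ hu5 _ hv5
      apply hnot
      have hu : u = 20 * (u / 20) + u % 20 := (Nat.div_add_mod u 20).symm
      have hv : v = 20 * (v / 20) + v % 20 := (Nat.div_add_mod v 20).symm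
      have e1 : (dec u).1 - (dec v).1 = ((u / 20 : ℕ) : ℤ) - ((v / 20 : ℕ) : ℤ) := by
        simp only [dec]; ring
      have e2 : (dec u).2 - (dec v).2 = ((u % 20 : ℕ) : ℤ) - ((v % 20 : ℕ) : ℤ) := by
        simp only [dec]; ring
      rw [e1, e2]
      generalize u / 20 = a at *
      generalize u % 20 = b at *
      generalize v / 20 = c at *
      generalize v % 20 = d at *
      rcases hspec with h | h | h | h | h | h | h | h | h | h | h | h
      · exact isD_of_eq 0 4 (by omega) (by omega) (by unfold isD; decide)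
      · exact isD_of_eq 1 (-4) (by omega) (by omega) (by unfold isD; decide)
      · exact isD_of_eq 1 4 (by omega) (by omega) (by unfold isD; decide)
      · exact isD_of_eq 2 (-4) (by omega) (by omega) (by unfold isD; decide)
      · exact isD_of_eq 2 4 (by omega) (by omega) (by unfold isD; decide)
      · exact isD_of_eq 3 (-3) (by omega) (by omega) (by unfold isD; decide)
      · exact isD_of_eq 3 3 (by omega) (by omega) (by unfold isD; decide)
      · exact isD_of_eq 4 (-2) (by omega) (by omega) (by unfold isD; decide)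
      · exact isD_of_eq 4 (-1) (by omega) (by omega) (by unfold isD; decide)
      · exact isD_of_eq 4 0 (by omega) (by omega) (by unfold isD; decide)
      · exact isD_of_eq 4 1 (by omega) (by omega) (by unfold isD; decide)
      · exact isD_of_eq 4 2 (by omega) (by omega) (by unfold isD; decide)
  refine (Finset.card_le_card ?_).trans (good_R0 _ hI)
  intro k hk
  have hk' := hF hk
  have hw := BB_window' hk'
  rw [mem_BB] at hk'
  rw [mem_bits]
  exact ⟨hk'.1, hk'.2, hw.1, hw.2.1, hw.2.2.1, hw.2.2.2, hFA k hk⟩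

/-- counting set bits -/
def cntBits (m : ℕ) : ℕ → ℕ
  | 0 => 0
  | n + 1 => cntBits m n + (if m.testBit n = true then 1 else 0)

theorem cntBits_eq (m n : ℕ) :
    ((List.range n).filter (fun k => m.testBit k)).length = cntBits m n := by
  induction n with
  | zero => rfl
  | succ n ih =>
    rw [List.range_succ, List.filter_append, List.length_append, ih]
    show _ = cntBits m n + (if m.testBit n = true then 1 else 0)
    cases h : m.testBit n <;> simp [h]

set_option maxRecDepth 1000000 in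
theorem cnt_R0 : cntBits R0 4096 = 333 := by
  decide +kernel

theorem BB_card : BB.card = 333 := by
  have h : ((List.range 4096).filter (fun k => R0.testBit k)).length = 333 := by
    rw [cntBits_eq]; exact cnt_R0
  have h2 : BB.card = ((List.range 4096).filter (fun k => R0.testBit k)).length := by
    unfold BB
    rw [← List.toFinset_range, ← List.toFinset_filter]
    rw [List.toFinset_card_of_nodup]
    exact (List.nodup_range).filter _
  rw [h2, h]

theorem average (A : Finset (ℤ × ℤ)) (N : ℕ)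
    (hbox : ∀ p ∈ A, 0 ≤ p.1 ∧ p.1 < N ∧ 0 ≤ p.2 ∧ p.2 < N) (hA : IndepZ (A : Set (ℤ × ℤ))) :
    333 * A.card ≤ 83 * (N + 12) ^ 2 := by
  set Box : Finset (ℤ × ℤ) := Finset.Ico (-6 : ℤ) (N + 6) ×ˢ Finset.Ico (-6 : ℤ) (N + 6) with hBox
  have hBoxcard : Box.card = (N + 12) ^ 2 := by
    rw [hBox, Finset.card_product, Int.card_Ico]
    have : ((N : ℤ) + 6 - -6).toNat = N + 12 := by omega
    rw [this]
    ring
  have hdouble := Finset.sum_card_bipartiteAbove_eq_sum_card_bipartiteBelow
    (s := Box) (t := BB) (fun t k => dec (k / 8) + t ∈ A)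
  have hleft : ∑ t ∈ Box, (Finset.bipartiteAbove (fun t k => dec (k / 8) + t ∈ A) BB t).card ≤
      ∑ _t ∈ Box, 83 := by
    apply Finset.sum_le_sum
    intro t _
    have hind : IndepZ {p : ℤ × ℤ | p + t ∈ A} := by
      intro p hp q hq hD
      have := hA (p + t) hp (q + t) hq
      apply this
      have e1 : (p + t).1 - (q + t).1 = p.1 - q.1 := by simp
      have e2 : (p + t).2 - (q + t).2 = p.2 - q.2 := by simp
      rw [e1, e2]
      exact hD
    apply pattern _ hind
    · intro k hk
      rw [Finset.mem_bipartiteAbove] at hk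
      exact hk.1
    · intro k hk
      rw [Finset.mem_bipartiteAbove] at hk
      exact hk.2
  have hright : ∑ _k ∈ BB, A.card ≤
      ∑ k ∈ BB, (Finset.bipartiteBelow (fun t k => dec (k / 8) + t ∈ A) Box k).card := by
    apply Finset.sum_le_sum
    intro k hk
    have hw := BB_window' hk
    apply Finset.card_le_card_of_injOn (fun a => a - dec (k / 8))
    · intro a ha
      have hb := hbox a ha
      rw [Finset.mem_coe, Finset.mem_bipartiteBelow]
      constructor
      · rw [hBox, Finset.mem_product, Finset.mem_Ico, Finset.mem_Ico]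
        simp only [dec, Prod.fst_sub, Prod.snd_sub]
        omega
      · have : dec (k / 8) + (a - dec (k / 8)) = a := by abel
        rw [this]
        exact ha
    · intro a _ b _ hab
      exact sub_left_injective hab
  rw [Finset.sum_const, smul_eq_mul, BB_card] at hright
  rw [Finset.sum_const, smul_eq_mul, hBoxcard] at hleft
  calc 333 * A.card ≤ _ := hright
    _ = _ := hdouble.symm
    _ ≤ (N + 12) ^ 2 * 83 := hleft
    _ = 83 * (N + 12) ^ 2 := by ring

end Pool.Agent.Helper260.OctPlane
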